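import Pool.Agent.Q20.Dix.Stmt

/-! MP_d88b0b_al, Q1 and Q2: tensor products of Poisson potential quotients are Dixmier and have
finite Poisson automorphism group, also when degrees coincide. -/

open MvPolynomial Q20.Dix

namespace Pool.Agent.Results.MP_d88b0b_al.DixmierFinite

universe u

/-- Let `k` be a field, `d` a natural number, `Ω i` (`i < d`) homogeneous polynomials in three
variables of degrees `n i ≥ 4` with finite dimensional Jacobian quotient, and `ξ i ∈ k`. The tensor
product `P = TP Ω ξ` of the algebras `k[x,y,z]/(Ω i - ξ i)` carries exactly one bracket `B` as in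
the problem. With this bracket every injective Poisson endomorphism of `P` is bijective, `P` has
only finitely many Poisson automorphisms, and even only finitely many Poisson endomorphisms. -/
theorem result (k : Type u) [Field k] (d : ℕ) (Ω : Fin d → MvPolynomial (Fin 3) k)
    (n : Fin d → ℕ) (hn : ∀ i, 4 ≤ n i) (hΩ : ∀ i, (Ω i).IsHomogeneous (n i))
    (hpot : ∀ i, IsIsolated (Ω i)) (ξ : Fin d → k) :
    (∃! B : TP Ω ξ → TP Ω ξ → TP Ω ξ, IsBracket Ω ξ B) ∧
    ∀ B : TP Ω ξ → TP Ω ξ → TP Ω ξ, IsBracket Ω ξ B →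
      (∀ φ : TP Ω ξ →ₐ[k] TP Ω ξ, Preserves B φ → Function.Injective φ → Function.Bijective φ) ∧
      {φ : TP Ω ξ ≃ₐ[k] TP Ω ξ | Preserves B φ}.Finite ∧
      {φ : TP Ω ξ →ₐ[k] TP Ω ξ | Preserves B φ}.Finite :=
  final Ω n hn hΩ hpot ξ

end Pool.Agent.Results.MP_d88b0b_al.DixmierFinite
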